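import Pool.Agent.Helper89.MS.Sheet

/-! MS (MP_8815b4_co): packages LAY and ASM. -/

open Finset

namespace MS.H13

theorem LAY : LAYStm := by
  intro n0 a v Z hZ
  have hmem : ∀ A ∈ (range n0).powersetCard a, A ⊆ range n0 ∧ #A = a := fun A hA =>
    mem_powersetCard.1 hA
  have hdis : ∀ A ∈ (range n0).powersetCard a, ∀ z ∈ Z, Disjoint A z := by
    intro A hA z hz
    rw [Finset.disjoint_left]
    intro x hx hxz
    have h1 := Finset.mem_range.1 ((hmem A hA).1 hx)
    have h2 := hZ z hz x hxz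
    omega
  have hinj : Set.InjOn (fun p : Finset ℕ × Finset ℕ => p.1 ∪ p.2)
      (((range n0).powersetCard a ×ˢ Z : Finset (Finset ℕ × Finset ℕ)) : Set (Finset ℕ × Finset ℕ)) := by
    rintro ⟨A, z⟩ hp ⟨A', z'⟩ hp' h
    rw [Finset.mem_coe, Finset.mem_product] at hp hp'
    have h : A ∪ z = A' ∪ z' := h
    have key : ∀ (A A' z z' : Finset ℕ), A ∈ (range n0).powersetCard a →
        A' ∈ (range n0).powersetCard a → z ∈ Z → z' ∈ Z → A ∪ z = A' ∪ z' →
        A ⊆ A' ∧ z ⊆ z' := by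
      intro A A' z z' hA hA' hz hz' h
      constructor
      · intro x hx
        have h1 : x ∈ A' ∪ z' := h ▸ Finset.mem_union_left _ hx
        rcases Finset.mem_union.1 h1 with h2 | h2
        · exact h2
        · have h3 := hZ z' hz' x h2
          have h4 := Finset.mem_range.1 ((hmem A hA).1 hx)
          omega
      · intro x hx
        have h1 : x ∈ A' ∪ z' := h ▸ Finset.mem_union_right _ hx
        rcases Finset.mem_union.1 h1 with h2 | h2
        · have h3 := hZ z hz x hx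
          have h4 := Finset.mem_range.1 ((hmem A' hA').1 h2)
          omega
        · exact h2
    have k1 := key A A' z z' hp.1 hp'.1 hp.2 hp'.2 h
    have k2 := key A' A z' z hp'.1 hp.1 hp'.2 hp.2 h.symm
    exact Prod.ext (Finset.Subset.antisymm k1.1 k2.1) (Finset.Subset.antisymm k1.2 k2.2)
  rw [wt, lay, Finset.sum_image hinj, Finset.sum_product]
  have h1 : ∀ A ∈ (range n0).powersetCard a, ∑ z ∈ Z, v #(A ∪ z) = wz v a Z := by
    intro A hA
    rw [wz]
    refine Finset.sum_congr rfl fun z hz => ?_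
    rw [Finset.card_union_of_disjoint (hdis A hA z hz), (hmem A hA).2]
  rw [Finset.sum_congr rfl h1, Finset.sum_const, Finset.card_powersetCard, Finset.card_range,
    nsmul_eq_mul]

theorem ASM : ASMStm := by
  intro h0 h1 h2 h3 h4 h5 h10 t m v ht htm hv F hF
  obtain ⟨F', hg, hw⟩ := h0 t m v hv.nn F hF
  by_cases hN : ∀ S ∈ NN m F', 2 * #S ≠ m + t
  · obtain ⟨G, hG, hGw⟩ := h4 t m v F' ht htm hv hg hN
    exact Or.inl ⟨G, hG, hw.trans hGw⟩
  · push Not at hN
    obtain ⟨S, hS, hSc⟩ := hN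
    obtain ⟨r, c, hm, hr, ht2, hc, hSc', hI⟩ := h3 t m v F' ht htm hv hg S hS hSc
    have hpos : 0 < v (c + 1) := hSc' ▸ ((h1 t m v F' ht htm hg).1 S hS).1
    have hP : ∀ T ∈ NN m F', #T = c + 1 ∨ (v (#T - 1) = 0 ∧ 0 < v #T) := by
      intro T hT
      by_cases hTc : 2 * #T = m + t
      · left
        omega
      · exact Or.inr ⟨h2 t m v F' ht htm hv hg T hT hTc, ((h1 t m v F' ht htm hg).1 T hT).1⟩
    have hsym := h10 t m r c v F' ht2 hv hg hm hr hc hpos hI hP ⟨S, hS, hSc'⟩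
    exact Or.inr ⟨r, hm, hw.trans (h5 t m r v F' ht hv.nn hg hsym hm)⟩

end MS.H13
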